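import Pool.Agent.Helper89.Stek.Uniq

/-!
Every Steklov eigenvalue of every domain in a closed surface, normalised by the length of the boundary, is
strictly smaller than the corresponding conformal eigenvalue of the surface.
-/

set_option autoImplicit false

open scoped Manifold ContDiff
open MeasureTheory Pool.Agent.Helper89.Stek

namespace Pool.Agent.Results.MP_9e30cd_gt.SteklovBelowConformal

/-- For every closed surface `(M, g)`, every domain `Ω` in `M` with nonempty smooth boundary and every
`k ≥ 1`, one has `σ_k(Ω, g) L(∂Ω) < λ_k^*(M, [g])`. Moreover the area measure of `g` and the length measure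
of the boundary, which enter the definitions, exist and are unique. -/
theorem result {M : Type*} [TopologicalSpace M] [T2Space M] [CompactSpace M] [ConnectedSpace M]
    [ChartedSpace (ℝ × ℝ) M] [IsManifold 𝓘(ℝ, ℝ × ℝ) ∞ M] [MeasurableSpace M] [BorelSpace M]
    (g : Metric M) (Ω : Set M) (hΩ : IsSmoothDomain Ω) (k : ℕ) (hk : 1 ≤ k) :
    ((steklov g Ω k * bdryLength g Ω : ℝ) : EReal) < conformalSup g k ∧
      (∃! μ : Measure M, IsAreaMeasure g μ) ∧ (∃! ν : Measure M, IsLengthMeasure g (frontier Ω) ν) :=
  ⟨steklov_lt_conformalSup g hΩ hk, existsUnique_area g, existsUnique_length g hΩ⟩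

end Pool.Agent.Results.MP_9e30cd_gt.SteklovBelowConformal
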